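import Pool.Agent.H839R3.Nas.Stmts

/-!
Task Acl of helper839 (MP_634b21_lc): only finitely many finite subsets of an amorphous set have
a given support.
-/

set_option autoImplicit false

namespace Pool.Agent.H343R3.Nas

open FirstOrder FirstOrder.Language
open Pool.Agent.Helper672.Plain (LSet Mem IsPair IsOrdPair Zermelo)
open Pool.Agent.H635Amen (ZF)
open Pool.Agent.H310Cards
open Pool.Agent.H839R3.Nas

universe u

section DA

variable {M : Type u} [LSet.Structure M]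

/-- Definability with all parameters. -/
def DA {ι : Type} (p : (ι → M) → Prop) : Prop := (Set.univ : Set M).Definable LSet {v | p v}

/-- Terms: variables and parameters. -/
def TA {ι : Type} (t : (ι → M) → M) : Prop :=
  ∃ τ : LSet[[(Set.univ : Set M)]].Term ι, ∀ v, τ.realize v = t v

variable {ι : Type}

theorem TA.var (i : ι) : TA (fun v : ι → M => v i) := ⟨Term.var i, fun _ => rfl⟩

theorem TA.const (a : M) : TA (fun _ : ι → M => a) :=
  ⟨(LSet.con (⟨a, trivial⟩ : (Set.univ : Set M))).term, fun v => by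
    simp [Term.realize_constants]⟩

theorem TA.up {t : (ι → M) → M} (h : TA t) :
    TA (fun w : ι ⊕ Unit → M => t (fun i => w (Sum.inl i))) := by
  obtain ⟨τ, hτ⟩ := h
  refine ⟨τ.relabel Sum.inl, fun v => ?_⟩
  rw [Term.realize_relabel]
  exact hτ _

theorem TA.last : TA (fun w : ι ⊕ Unit → M => w (Sum.inr ())) := TA.var _

theorem DA.not {p : (ι → M) → Prop} (hp : DA p) : DA (fun v => ¬ p v) := Set.Definable.compl hp

theorem DA.and {p q : (ι → M) → Prop} (hp : DA p) (hq : DA q) :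
    DA (fun v => p v ∧ q v) := Set.Definable.inter hp hq

theorem DA.or {p q : (ι → M) → Prop} (hp : DA p) (hq : DA q) :
    DA (fun v => p v ∨ q v) := Set.Definable.union hp hq

theorem DA.imp {p q : (ι → M) → Prop} (hp : DA p) (hq : DA q) :
    DA (fun v => p v → q v) := by
  have h := (hp.not).or hq
  refine Eq.mp (congrArg DA ?_) h
  funext v
  exact propext imp_iff_not_or.symm

theorem DA.iff {p q : (ι → M) → Prop} (hp : DA p) (hq : DA q) :
    DA (fun v => (p v ↔ q v)) := by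
  have h := (hp.imp hq).and (hq.imp hp)
  refine Eq.mp (congrArg DA ?_) h
  funext v
  exact propext iff_iff_implies_and_implies.symm

theorem DA.ex {p : (ι → M) → M → Prop}
    (h : DA (fun w : ι ⊕ Unit → M => p (fun i => w (Sum.inl i)) (w (Sum.inr ())))) :
    DA (fun v => ∃ x, p v x) := by
  have h1 := Set.Definable.exists_of_finite (β := Unit) h
  refine Eq.mp (congrArg DA ?_) h1
  funext v
  refine propext ⟨fun ⟨a, ha⟩ => ⟨a (), ha⟩, fun ⟨x, hx⟩ => ⟨fun _ => x, hx⟩⟩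

theorem DA.all {p : (ι → M) → M → Prop}
    (h : DA (fun w : ι ⊕ Unit → M => p (fun i => w (Sum.inl i)) (w (Sum.inr ())))) :
    DA (fun v => ∀ x, p v x) := by
  have h1 := Set.Definable.forall_of_finite (β := Unit) h
  refine Eq.mp (congrArg DA ?_) h1
  funext v
  refine propext ⟨fun h2 x => h2 fun _ => x, fun h2 a => h2 (a ())⟩

theorem DA.mem {s t : (ι → M) → M} (hs : TA s) (ht : TA t) :
    DA (fun v => Mem (s v) (t v)) := by
  obtain ⟨σ, hσ⟩ := hs
  obtain ⟨τ, hτ⟩ := ht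
  refine ⟨Relations.formula₂ (((LSet.lhomWithConstants (Set.univ : Set M)).onRelation
    (Pool.Agent.Helper672.Plain.Sym.mem : LSet.Relations 2))) σ τ, ?_⟩
  ext v
  simp only [Set.mem_ofPred_eq, Formula.realize_rel₂, hσ, hτ]
  rfl

theorem DA.eq {s t : (ι → M) → M} (hs : TA s) (ht : TA t) : DA (fun v => s v = t v) := by
  obtain ⟨σ, hσ⟩ := hs
  obtain ⟨τ, hτ⟩ := ht
  refine ⟨σ.equal τ, ?_⟩
  ext v
  simp only [Set.mem_ofPred_eq, Formula.realize_equal, hσ, hτ]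

theorem DA.isPair {p s t : (ι → M) → M} (hp : TA p) (hs : TA s) (ht : TA t) :
    DA (fun v => IsPair (p v) (s v) (t v)) :=
  DA.all (p := fun v z => Mem z (p v) ↔ z = s v ∨ z = t v)
    ((DA.mem TA.last hp.up).iff ((DA.eq TA.last hs.up).or (DA.eq TA.last ht.up)))

theorem DA.isOrdPair {p s t : (ι → M) → M} (hp : TA p) (hs : TA s) (ht : TA t) :
    DA (fun v => IsOrdPair (p v) (s v) (t v)) :=
  DA.ex (p := fun v a => ∃ d, IsPair a (s v) (s v) ∧ IsPair d (s v) (t v) ∧ IsPair (p v) a d)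
    (DA.ex (p := fun (w : ι ⊕ Unit → M) d =>
        IsPair (w (Sum.inr ())) (s (fun i => w (Sum.inl i))) (s (fun i => w (Sum.inl i))) ∧
        IsPair d (s (fun i => w (Sum.inl i))) (t (fun i => w (Sum.inl i))) ∧
        IsPair (p (fun i => w (Sum.inl i))) (w (Sum.inr ())) d)
      ((DA.isPair (TA.last.up) hs.up.up hs.up.up).and
        ((DA.isPair TA.last hs.up.up ht.up.up).and (DA.isPair hp.up.up TA.last.up TA.last))))

theorem DA.app {p s t : (ι → M) → M} (hp : TA p) (hs : TA s) (ht : TA t) :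
    DA (fun v => App (p v) (s v) (t v)) :=
  DA.ex (p := fun v q => IsOrdPair q (s v) (t v) ∧ Mem q (p v))
    ((DA.isOrdPair TA.last hs.up ht.up).and (DA.mem TA.last hp.up))

theorem DA.isInductive {t : (ι → M) → M} (ht : TA t) : DA (fun v => IsInductive (t v)) := by
  refine DA.and ?_ ?_
  · refine DA.ex (p := fun v e => Mem e (t v) ∧ ∀ z, ¬ Mem z e) ?_
    refine (DA.mem TA.last ht.up).and ?_
    exact DA.all (p := fun (w : ι ⊕ Unit → M) z => ¬ Mem z (w (Sum.inr ())))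
      (DA.mem TA.last TA.last.up).not
  · refine DA.all (p := fun v n => Mem n (t v) → ∃ s, Mem s (t v) ∧
      ∀ z, Mem z s ↔ Mem z n ∨ z = n) ?_
    refine (DA.mem TA.last ht.up).imp ?_
    refine DA.ex (p := fun (w : ι ⊕ Unit → M) s => Mem s (t fun i => w (Sum.inl i)) ∧
      ∀ z, Mem z s ↔ Mem z (w (Sum.inr ())) ∨ z = (w (Sum.inr ()))) ?_
    refine (DA.mem TA.last ht.up.up).and ?_
    refine DA.all (p := fun (w : (ι ⊕ Unit) ⊕ Unit → M) z => Mem z (w (Sum.inr ())) ↔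
      Mem z (w (Sum.inl (Sum.inr ()))) ∨ z = (w (Sum.inl (Sum.inr ())))) ?_
    exact (DA.mem TA.last TA.last.up).iff
      ((DA.mem TA.last TA.last.up.up).or (DA.eq TA.last TA.last.up.up))

theorem DA.isNat {t : (ι → M) → M} (ht : TA t) : DA (fun v => IsNat (t v)) :=
  DA.all (p := fun v i => IsInductive i → Mem (t v) i)
    ((DA.isInductive TA.last).imp (DA.mem ht.up TA.last))

theorem DA.isFun {f s t : (ι → M) → M} (hf : TA f) (hs : TA s) (ht : TA t) :
    DA (fun v => IsFun (f v) (s v) (t v)) := by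
  refine DA.and ?_ ?_
  · refine DA.all (p := fun v q => Mem q (f v) → ∃ x y, Mem x (s v) ∧ Mem y (t v) ∧
      IsOrdPair q x y) ?_
    refine (DA.mem TA.last hf.up).imp ?_
    refine DA.ex (p := fun (w : ι ⊕ Unit → M) x => ∃ y, Mem x (s fun i => w (Sum.inl i)) ∧
      Mem y (t fun i => w (Sum.inl i)) ∧ IsOrdPair (w (Sum.inr ())) x y) ?_
    refine DA.ex (p := fun (w : (ι ⊕ Unit) ⊕ Unit → M) y =>
      Mem (w (Sum.inr ())) (s fun i => w (Sum.inl (Sum.inl i))) ∧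
      Mem y (t fun i => w (Sum.inl (Sum.inl i))) ∧
      IsOrdPair (w (Sum.inl (Sum.inr ()))) (w (Sum.inr ())) y) ?_
    exact (DA.mem TA.last.up hs.up.up.up).and ((DA.mem TA.last ht.up.up.up).and
      (DA.isOrdPair TA.last.up.up TA.last.up TA.last))
  · refine DA.all (p := fun v x => Mem x (s v) → ∃! y, App (f v) x y) ?_
    refine (DA.mem TA.last hs.up).imp ?_
    refine DA.ex (p := fun (w : ι ⊕ Unit → M) y =>
      App (f fun i => w (Sum.inl i)) (w (Sum.inr ())) y ∧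
      ∀ y', App (f fun i => w (Sum.inl i)) (w (Sum.inr ())) y' → y' = y) ?_
    refine (DA.app hf.up.up TA.last.up TA.last).and ?_
    refine DA.all (p := fun (w : (ι ⊕ Unit) ⊕ Unit → M) y' =>
      App (f fun i => w (Sum.inl (Sum.inl i))) (w (Sum.inl (Sum.inr ()))) y' →
        y' = w (Sum.inr ())) ?_
    exact (DA.app hf.up.up.up TA.last.up.up TA.last).imp (DA.eq TA.last TA.last.up)

theorem DA.isInj {f s t : (ι → M) → M} (hf : TA f) (hs : TA s) (ht : TA t) :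
    DA (fun v => IsInj (f v) (s v) (t v)) := by
  refine (DA.isFun hf hs ht).and ?_
  refine DA.all (p := fun v x => ∀ x' y, App (f v) x y → App (f v) x' y → x = x') ?_
  refine DA.all (p := fun (w : ι ⊕ Unit → M) x' => ∀ y,
    App (f fun i => w (Sum.inl i)) (w (Sum.inr ())) y →
    App (f fun i => w (Sum.inl i)) x' y → (w (Sum.inr ())) = x') ?_
  refine DA.all (p := fun (w : (ι ⊕ Unit) ⊕ Unit → M) y =>
    App (f fun i => w (Sum.inl (Sum.inl i))) (w (Sum.inl (Sum.inr ()))) y →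
    App (f fun i => w (Sum.inl (Sum.inl i))) (w (Sum.inr ())) y →
      (w (Sum.inl (Sum.inr ()))) = (w (Sum.inr ()))) ?_
  exact (DA.app hf.up.up.up TA.last.up.up TA.last).imp
    ((DA.app hf.up.up.up TA.last.up TA.last).imp (DA.eq TA.last.up.up TA.last.up))

theorem DA.isBij {f s t : (ι → M) → M} (hf : TA f) (hs : TA s) (ht : TA t) :
    DA (fun v => IsBij (f v) (s v) (t v)) := by
  refine (DA.isInj hf hs ht).and ?_
  refine DA.all (p := fun v y => Mem y (t v) → ∃ x, App (f v) x y) ?_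
  refine (DA.mem TA.last ht.up).imp ?_
  refine DA.ex (p := fun (w : ι ⊕ Unit → M) x =>
    App (f fun i => w (Sum.inl i)) x (w (Sum.inr ()))) ?_
  exact DA.app hf.up.up TA.last TA.last.up

theorem DA.isFinite {t : (ι → M) → M} (ht : TA t) : DA (fun v => IsFinite (t v)) := by
  refine DA.ex (p := fun v n => ∃ f, IsNat n ∧ IsBij f (t v) n) ?_
  refine DA.ex (p := fun (w : ι ⊕ Unit → M) f => IsNat (w (Sum.inr ())) ∧
    IsBij f (t fun i => w (Sum.inl i)) (w (Sum.inr ()))) ?_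
  exact (DA.isNat TA.last.up).and (DA.isBij TA.last ht.up.up TA.last.up)

end DA

section

variable {M : Type u} [LSet.Structure M] [hZ : Zermelo M]

theorem sep (P : M → Prop) (h : DA (fun v : Fin 1 → M => P (v 0))) (x : M) :
    ∃ y, ∀ z, Mem z y ↔ Mem z x ∧ P z := hZ.separation {z | P z} h x

theorem ex_ordPair (a b : M) : ∃ q, IsOrdPair q a b := by
  obtain ⟨s, hs⟩ := hZ.pairing a a
  obtain ⟨d, hd⟩ := hZ.pairing a b
  obtain ⟨q, hq⟩ := hZ.pairing s d
  exact ⟨q, s, d, hs, hd, hq⟩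

theorem ordPair_inj {q a b a' b' : M} (h : IsOrdPair q a b) (h' : IsOrdPair q a' b') :
    a = a' ∧ b = b' := by
  obtain ⟨s, d, hs, hd, hq⟩ := h
  obtain ⟨s', d', hs', hd', hq'⟩ := h'
  have has : Mem a s := (hs a).2 (Or.inl rfl)
  have had : Mem a d := (hd a).2 (Or.inl rfl)
  have hbd : Mem b d := (hd b).2 (Or.inr rfl)
  have has' : Mem a' s' := (hs' a').2 (Or.inl rfl)
  have hbd' : Mem b' d' := (hd' b').2 (Or.inr rfl)
  have hsq : Mem s' q := (hq' s').2 (Or.inl rfl)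
  have hdq : Mem d q := (hq d).2 (Or.inr rfl)
  have hdq' : Mem d' q := (hq' d').2 (Or.inr rfl)
  have h1 : a = a' := by
    rcases (hq s').1 hsq with h | h
    · have := (hs a').1 (h ▸ has')
      rcases this with h2 | h2 <;> exact h2.symm
    · have := (hs' a).1 (h.symm ▸ had)
      rcases this with h2 | h2 <;> exact h2
  refine ⟨h1, ?_⟩
  rcases (hq' d).1 hdq with h | h
  · have h2 : b = a' := by
      rcases (hs' b).1 (h ▸ hbd) with h2 | h2 <;> exact h2
    rcases (hq d').1 hdq' with h3 | h3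
    · rcases (hs b').1 (h3 ▸ hbd') with h4 | h4 <;> rw [h4, h1, h2]
    · rcases (hd b').1 (h3 ▸ hbd') with h4 | h4
      · rw [h4, h1, h2]
      · exact h4.symm
  · rcases (hd' b).1 (h ▸ hbd) with h2 | h2
    · rcases (hd b').1 (h.symm ▸ hbd') with h4 | h4
      · rw [h4, h1, h2]
      · exact h4.symm
    · exact h2

/-- Definable relations on a set. -/
theorem ex_rel (Y : M) (P : M → M → Prop)
    (h : DA (fun w : (Fin 1 ⊕ Unit) ⊕ Unit → M => P (w (Sum.inl (Sum.inr ()))) (w (Sum.inr ())))) :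
    ∃ r, ∀ a b, App r a b ↔ Mem a Y ∧ Mem b Y ∧ P a b := by
  obtain ⟨p1, hp1⟩ := hZ.power Y
  obtain ⟨p2, hp2⟩ := hZ.power p1
  obtain ⟨r, hr⟩ := sep (fun q : M => ∃ a b, IsOrdPair q a b ∧ Mem a Y ∧ Mem b Y ∧ P a b) (by
    refine DA.ex (p := fun (v : Fin 1 → M) a => ∃ b, IsOrdPair (v 0) a b ∧ Mem a Y ∧ Mem b Y ∧
      P a b) ?_
    refine DA.ex (p := fun (w : Fin 1 ⊕ Unit → M) b => IsOrdPair (w (Sum.inl 0)) (w (Sum.inr ())) b ∧
      Mem (w (Sum.inr ())) Y ∧ Mem b Y ∧ P (w (Sum.inr ())) b) ?_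
    exact (DA.isOrdPair (TA.var 0).up.up TA.last.up TA.last).and
      ((DA.mem TA.last.up (TA.const Y)).and ((DA.mem TA.last (TA.const Y)).and h))) p2
  refine ⟨r, fun a b => ⟨?_, ?_⟩⟩
  · rintro ⟨q, hq, hqr⟩
    obtain ⟨-, a', b', hq', h1, h2, h3⟩ := (hr q).1 hqr
    obtain ⟨rfl, rfl⟩ := ordPair_inj hq hq'
    exact ⟨h1, h2, h3⟩
  · rintro ⟨h1, h2, h3⟩
    obtain ⟨q, hq⟩ := ex_ordPair a b
    refine ⟨q, hq, (hr q).2 ⟨?_, a, b, hq, h1, h2, h3⟩⟩
    rw [hp2]
    intro w hw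
    rw [hp1]
    obtain ⟨s, d, hs, hd, hq⟩ := hq
    intro z hz
    rcases (hq w).1 hw with rfl | rfl
    · rcases (hs z).1 hz with rfl | rfl <;> exact h1
    · rcases (hd z).1 hz with rfl | rfl
      · exact h1
      · exact h2

end

theorem taskAcl : TaskAcl := by
  intro hsplit U N _ S y hy e
  by_contra hinf
  have hZF : ZF N := S.zf
  obtain ⟨X, r, hX, hr⟩ := S.wo y e
  obtain ⟨y', hy'⟩ := sep (fun z : N => ∃ Z, Mem Z X ∧ IsFinite Z ∧ Mem z Z) (by
    refine DA.ex (p := fun (v : Fin 1 → N) Z => Mem Z X ∧ IsFinite Z ∧ Mem (v 0) Z) ?_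
    exact (DA.mem TA.last (TA.const X)).and ((DA.isFinite TA.last).and
      (DA.mem (TA.var 0).up TA.last))) y
  let le : N → N → Prop := fun u v => u = v ∨ App r u v
  have le_trans : ∀ u v w, le u v → le v w → le u w := by
    rintro u v w (rfl | h1) (rfl | h2)
    · exact Or.inl rfl
    · exact Or.inr h2
    · exact Or.inr h1
    · exact Or.inr (hr.trans _ _ _ h1 h2)
  have le_anti : ∀ u v, le u v → le v u → u = v := by
    rintro u v (rfl | h1) (h2 | h2)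
    · rfl
    · rfl
    · exact h2.symm
    · exact absurd (hr.trans _ _ _ h1 h2) (hr.irrefl _)
  obtain ⟨r', hr'⟩ := ex_rel y' (fun a b : N => ∀ Z', (Mem Z' X ∧ IsFinite Z' ∧ Mem b Z') →
      ∃ Z, (Mem Z X ∧ IsFinite Z ∧ Mem a Z) ∧ (Z = Z' ∨ App r Z Z')) (by
    refine DA.all (p := fun (w : (Fin 1 ⊕ Unit) ⊕ Unit → N) Z' =>
      (Mem Z' X ∧ IsFinite Z' ∧ Mem (w (Sum.inr ())) Z') →
      ∃ Z, (Mem Z X ∧ IsFinite Z ∧ Mem (w (Sum.inl (Sum.inr ()))) Z) ∧ (Z = Z' ∨ App r Z Z')) ?_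
    refine ((DA.mem TA.last (TA.const X)).and ((DA.isFinite TA.last).and
      (DA.mem TA.last.up TA.last))).imp ?_
    refine DA.ex (p := fun (w : ((Fin 1 ⊕ Unit) ⊕ Unit) ⊕ Unit → N) Z =>
      (Mem Z X ∧ IsFinite Z ∧ Mem (w (Sum.inl (Sum.inl (Sum.inr ())))) Z) ∧
        (Z = (w (Sum.inr ())) ∨ App r Z (w (Sum.inr ())))) ?_
    exact ((DA.mem TA.last (TA.const X)).and ((DA.isFinite TA.last).and
      (DA.mem TA.last.up.up.up TA.last))).and
      ((DA.eq TA.last TA.last.up).or (DA.app (TA.const r) TA.last TA.last.up)))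
  -- least set containing a point
  have hmin : ∀ a, Mem a y' → ∃ Z, (Mem Z X ∧ IsFinite Z ∧ Mem a Z) ∧
      ∀ Z', (Mem Z' X ∧ IsFinite Z' ∧ Mem a Z') → le Z Z' := by
    intro a ha
    obtain ⟨s, hs⟩ := sep (fun Z : N => IsFinite Z ∧ Mem a Z)
      ((DA.isFinite (TA.var 0)).and (DA.mem (TA.const a) (TA.var 0))) X
    obtain ⟨-, Z0, h1, h2, h3⟩ := (hy' a).1 ha
    obtain ⟨Z, hZs, hZ⟩ := hr.least s (fun x hx => ((hs x).1 hx).1) ⟨Z0, (hs Z0).2 ⟨h1, h2, h3⟩⟩
    refine ⟨Z, (hs Z).1 hZs, fun Z' hZ' => ?_⟩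
    rcases hZ Z' ((hs Z').2 hZ') with h | h
    · exact Or.inl h.symm
    · exact Or.inr h
  choose! Zf hZf1 hZf2 using hmin
  have key : ∀ a b, App r' a b ↔ Mem a y' ∧ Mem b y' ∧ le (Zf a) (Zf b) := by
    intro a b
    rw [hr']
    refine and_congr_right fun ha => and_congr_right fun hb => ⟨fun h => ?_, fun h => ?_⟩
    · obtain ⟨Z, hZ, hZ'⟩ := h (Zf b) (hZf1 b hb)
      exact le_trans _ _ _ (hZf2 a ha Z hZ) hZ'
    · intro Z' hZ'
      exact ⟨Zf a, hZf1 a ha, le_trans _ _ _ h (hZf2 b hb Z' hZ')⟩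
  refine hsplit N S.zf S.std y y' r' hy (fun x hx => ((hy' x).1 hx).1) ?_ ?_ ?_ ?_ ?_
  · intro hfin
    refine hinf ((S.std y' hfin).subset ?_)
    rintro x ⟨z, hz, hzy, hze, hxz⟩
    exact (hy' x).2 ⟨hzy x hxz, z, (hX z).2 ⟨hzy, hze⟩, hz, hxz⟩
  · intro a b c _ _ _ h1 h2
    rw [key] at *
    exact ⟨h1.1, h2.2.1, le_trans _ _ _ h1.2.2 h2.2.2⟩
  · intro a b ha hb
    rw [key, key]
    rcases hr.total (Zf a) (Zf b) (hZf1 a ha).1 (hZf1 b hb).1 with h | h | h
    · exact Or.inl ⟨ha, hb, Or.inl h⟩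
    · exact Or.inl ⟨ha, hb, Or.inr h⟩
    · exact Or.inr ⟨hb, ha, Or.inr h⟩
  · intro s hs hne
    obtain ⟨t, ht⟩ := sep (fun Z : N => IsFinite Z ∧ ∃ x, Mem x s ∧ Mem x Z) (by
      refine (DA.isFinite (TA.var 0)).and ?_
      refine DA.ex (p := fun (v : Fin 1 → N) x => Mem x s ∧ Mem x (v 0)) ?_
      exact (DA.mem TA.last (TA.const s)).and (DA.mem TA.last (TA.var 0).up)) X
    obtain ⟨x0, hx0⟩ := hne
    obtain ⟨h1, h2, h3⟩ := hZf1 x0 (hs x0 hx0)
    obtain ⟨Z0, hZ0, hZ0'⟩ := hr.least t (fun x hx => ((ht x).1 hx).1)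
      ⟨Zf x0, (ht _).2 ⟨h1, h2, x0, hx0, h3⟩⟩
    obtain ⟨h4, h5, x, hxs, hxZ⟩ := (ht Z0).1 hZ0
    refine ⟨x, hxs, fun z hz => (key x z).2 ⟨hs x hxs, hs z hz, ?_⟩⟩
    refine le_trans _ _ _ (hZf2 x (hs x hxs) Z0 ⟨h4, h5, hxZ⟩) ?_
    obtain ⟨h6, h7, h8⟩ := hZf1 z (hs z hz)
    rcases hZ0' (Zf z) ((ht _).2 ⟨h6, h7, z, hz, h8⟩) with h | h
    · exact Or.inl h.symm
    · exact Or.inr h
  · intro a ha
    refine (S.std (Zf a) (hZf1 a ha).2.1).subset ?_
    rintro b ⟨hb, h1, h2⟩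
    have h3 := le_anti _ _ ((key a b).1 h1).2.2 ((key b a).1 h2).2.2
    change Mem b (Zf a)
    rw [h3]
    exact (hZf1 b hb).2.2

end Pool.Agent.H343R3.Nas
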